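import Pool.Agent.U84.SP.M3

/-!
# A nef and big class on a compact Kähler surface without smooth semipositive representative
-/

set_option autoImplicit false

open Set Topology Filter
open scoped ContDiff Manifold

namespace Pool.Agent.Results.MP_4ff127_gt.NefBigNotSemipositive

open Pool.Agent.U84.NB

/-- There are a compact connected complex surface `X` with a Kähler form `Ω` and a smooth closed real
`(1,1)`-form `θ` on `X` whose class is nef and big, but contains no smooth semipositive form. -/
theorem result : ∃ (X : Type) (_ : TopologicalSpace X) (_ : ChartedSpace (ℂ × ℂ) X),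
    IsManifold 𝓘(ℂ, ℂ × ℂ) ω X ∧ T2Space X ∧ SecondCountableTopology X ∧ CompactSpace X ∧
    ConnectedSpace X ∧
    ∃ Ω θ : Form X, Ω.IsKahler ∧ θ.IsNef Ω ∧ θ.IsBig Ω ∧ ¬ θ.HasSemipositive :=
  ⟨Pool.Agent.U84.SP.X, inferInstance, inferInstance, inferInstance, inferInstance,
    ChartedSpace.secondCountable_of_sigmaCompact (ℂ × ℂ) Pool.Agent.U84.SP.X, inferInstance,
    inferInstance, Pool.Agent.U84.SP.main⟩

end Pool.Agent.Results.MP_4ff127_gt.NefBigNotSemipositive
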